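import Mathlib

/-!
A moment inequality on the discrete cube: if `F : {±1}^I → ℝ` and
`V F x = ∑ k, |D k F x|^2` with `D k F` the discrete partial derivative, then
`E (F - E F)^(2r) ≤ (2r-1)^r * E (V F)^r`.
-/

namespace Pool.Agent.Hhelper13.CubeMoment

open Finset

noncomputable section

variable {I : Type*} [Fintype I] [DecidableEq I]

/-- the sign of a boolean -/
def sg (b : Bool) : ℝ := if b then 1 else -1

@[simp] lemma sg_true : sg true = 1 := rfl
@[simp] lemma sg_false : sg false = -1 := rfl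
@[simp] lemma sg_not (b : Bool) : sg (!b) = - sg b := by cases b <;> simp
@[simp] lemma sg_mul_self (b : Bool) : sg b * sg b = 1 := by cases b <;> simp
@[simp] lemma sg_sq (b : Bool) : sg b ^ 2 = 1 := by cases b <;> simp
@[simp] lemma abs_sg (b : Bool) : |sg b| = 1 := by cases b <;> simp

/-- flip the coordinate `k` -/
def flip (k : I) (x : I → Bool) : I → Bool := Function.update x k (!x k)

@[simp] lemma flip_same (k : I) (x : I → Bool) : flip k x k = !x k := by simp [flip]
lemma flip_ne {k i : I} (h : i ≠ k) (x : I → Bool) : flip k x i = x i := by simp [flip, h]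
@[simp] lemma flip_flip (k : I) (x : I → Bool) : flip k (flip k x) = x := by
  ext i
  by_cases h : i = k
  · subst h; simp
  · rw [flip_ne h, flip_ne h]

/-- the flip as a permutation -/
def flipE (k : I) : Equiv.Perm (I → Bool) :=
  ⟨flip k, flip k, flip_flip k, flip_flip k⟩

lemma sum_flip {M : Type*} [AddCommMonoid M] (k : I) (f : (I → Bool) → M) :
    ∑ x, f (flip k x) = ∑ x, f x :=
  Equiv.sum_comp (flipE k) f

/-- uniform average over the cube -/
def Ex (F : (I → Bool) → ℝ) : ℝ := (∑ x, F x) / 2 ^ Fintype.card I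

/-- discrete derivative -/
def D (k : I) (F : (I → Bool) → ℝ) (x : I → Bool) : ℝ := sg (x k) * (F x - F (flip k x)) / 2

/-- sum of the squares of the discrete derivatives -/
def V (F : (I → Bool) → ℝ) (x : I → Bool) : ℝ := ∑ k, D k F x ^ 2

lemma V_nonneg (F : (I → Bool) → ℝ) (x : I → Bool) : 0 ≤ V F x :=
  sum_nonneg fun _ _ => sq_nonneg _

@[simp] lemma D_flip (k : I) (F : (I → Bool) → ℝ) (x : I → Bool) : D k F (flip k x) = D k F x := by
  unfold D
  rw [flip_flip, flip_same, sg_not]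
  ring

/-- the weight of a pair, with correlation `ρ` -/
def wt (ρ : ℝ) (x y : I → Bool) : ℝ := ∏ i, (1 + ρ * (sg (x i) * sg (y i)))

/-- the weight without the factor `k` -/
def wtk (k : I) (ρ : ℝ) (x y : I → Bool) : ℝ := ∏ i ∈ univ.erase k, (1 + ρ * (sg (x i) * sg (y i)))

lemma wt_eq (k : I) (ρ : ℝ) (x y : I → Bool) :
    wt ρ x y = (1 + ρ * (sg (x k) * sg (y k))) * wtk k ρ x y := by
  unfold wt wtk
  rw [mul_prod_erase univ (fun i => 1 + ρ * (sg (x i) * sg (y i))) (mem_univ k)]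

lemma wtk_flip_left (k : I) (ρ : ℝ) (x y : I → Bool) : wtk k ρ (flip k x) y = wtk k ρ x y := by
  unfold wtk
  apply prod_congr rfl
  intro i hi
  rw [flip_ne (ne_of_mem_erase hi)]

lemma wtk_flip_right (k : I) (ρ : ℝ) (x y : I → Bool) : wtk k ρ x (flip k y) = wtk k ρ x y := by
  unfold wtk
  apply prod_congr rfl
  intro i hi
  rw [flip_ne (ne_of_mem_erase hi)]

lemma wt_flip_flip (k : I) (ρ : ℝ) (x y : I → Bool) : wt ρ (flip k x) (flip k y) = wt ρ x y := by
  rw [wt_eq k, wt_eq k, wtk_flip_left, wtk_flip_right, flip_same, flip_same, sg_not, sg_not]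
  ring

lemma wt_nonneg {ρ : ℝ} (h0 : 0 ≤ ρ) (h1 : ρ ≤ 1) (x y : I → Bool) : 0 ≤ wt ρ x y := by
  unfold wt
  apply prod_nonneg
  intro i _
  have : -1 ≤ sg (x i) * sg (y i) := by
    cases x i <;> cases y i <;> simp
  nlinarith

lemma sum_prod_bool (f : I → Bool → ℝ) : ∑ x : I → Bool, ∏ i, f i (x i) = ∏ i, (f i true + f i false) := by
  have := Finset.prod_univ_sum (fun _ : I => (univ : Finset Bool)) f
  rw [Fintype.piFinset_univ] at this
  rw [← this]
  apply prod_congr rfl
  intro i _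
  simp

lemma sum_wt (ρ : ℝ) (x : I → Bool) : ∑ y, wt ρ x y = 2 ^ Fintype.card I := by
  unfold wt
  rw [sum_prod_bool (fun i b => 1 + ρ * (sg (x i) * sg b))]
  have : ∀ i, (1 + ρ * (sg (x i) * sg true)) + (1 + ρ * (sg (x i) * sg false)) = 2 := by
    intro i; rw [sg_true, sg_false]; ring
  rw [prod_congr rfl (fun i _ => this i)]
  simp [Finset.card_univ]

lemma wt_comm (ρ : ℝ) (x y : I → Bool) : wt ρ x y = wt ρ y x := by
  unfold wt
  apply prod_congr rfl
  intro i _
  ring

lemma sum_wt' (ρ : ℝ) (y : I → Bool) : ∑ x, wt ρ x y = 2 ^ Fintype.card I := by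
  simp_rw [fun x => wt_comm ρ x y]
  exact sum_wt ρ y

lemma wt_zero (x y : I → Bool) : wt 0 x y = 1 := by
  unfold wt; simp

lemma wt_one_self (x : I → Bool) : wt 1 x x = 2 ^ Fintype.card I := by
  unfold wt
  have : ∀ i, (1 : ℝ) + 1 * (sg (x i) * sg (x i)) = 2 := by intro i; rw [sg_mul_self]; norm_num
  rw [prod_congr rfl (fun i _ => this i)]
  simp [Finset.card_univ]

lemma wt_one_ne {x y : I → Bool} (h : x ≠ y) : wt 1 x y = 0 := by
  obtain ⟨i, hi⟩ := Function.ne_iff.1 h
  unfold wt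
  apply prod_eq_zero (mem_univ i)
  revert hi
  cases x i <;> cases y i <;> simp

/-- the interpolation -/
def Phi (G F : (I → Bool) → ℝ) (ρ : ℝ) : ℝ := ∑ x, ∑ y, G x * F y * wt ρ x y

lemma Phi_zero (G F : (I → Bool) → ℝ) : Phi G F 0 = (∑ x, G x) * ∑ y, F y := by
  unfold Phi
  simp_rw [wt_zero, mul_one]
  rw [Finset.sum_mul_sum]

lemma Phi_one (G F : (I → Bool) → ℝ) : Phi G F 1 = 2 ^ Fintype.card I * ∑ x, G x * F x := by
  unfold Phi
  rw [mul_sum]
  apply sum_congr rfl
  intro x _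
  rw [sum_eq_single x]
  · rw [wt_one_self]; ring
  · intro y _ hy
    rw [wt_one_ne hy.symm, mul_zero]
  · simp

lemma hasDerivAt_wt (ρ : ℝ) (x y : I → Bool) :
    HasDerivAt (fun r => wt r x y) (∑ k, sg (x k) * sg (y k) * wtk k ρ x y) ρ := by
  have h := HasDerivAt.fun_finsetProd (u := (univ : Finset I)) (x := ρ)
    (f := fun i r => 1 + r * (sg (x i) * sg (y i))) (f' := fun i => sg (x i) * sg (y i)) (by
      intro i _
      have := ((hasDerivAt_id ρ).mul_const (sg (x i) * sg (y i))).const_add 1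
      simpa using this)
  unfold wt
  refine h.congr_deriv ?_
  apply sum_congr rfl
  intro k _
  simp only [smul_eq_mul]
  unfold wtk
  ring

lemma sum_key (k : I) (ρ : ℝ) (G F : (I → Bool) → ℝ) :
    ∑ x, ∑ y, G x * F y * (sg (x k) * sg (y k) * wtk k ρ x y)
      = ∑ x, ∑ y, D k G x * D k F y * wt ρ x y := by
  have h1 : ∑ x, ∑ y, G x * F y * (sg (x k) * sg (y k) * wtk k ρ x y)
      = ∑ x, ∑ y, D k G x * (F y * sg (y k)) * wtk k ρ x y := by
    have e1 := sum_flip k (fun x => ∑ y, G x * F y * (sg (x k) * sg (y k) * wtk k ρ x y))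
    have : ∑ x, ∑ y, D k G x * (F y * sg (y k)) * wtk k ρ x y
        = (∑ x, ∑ y, G x * F y * (sg (x k) * sg (y k) * wtk k ρ x y)
          + ∑ x, ∑ y, G (flip k x) * F y * (sg (flip k x k) * sg (y k) * wtk k ρ (flip k x) y)) / 2 := by
      rw [← sum_add_distrib, sum_div]
      apply sum_congr rfl
      intro x _
      rw [← sum_add_distrib, sum_div]
      apply sum_congr rfl
      intro y _
      rw [wtk_flip_left, flip_same, sg_not]
      unfold D
      ring
    rw [this, e1]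
    ring
  have h2 : ∑ x, ∑ y, D k G x * (F y * sg (y k)) * wtk k ρ x y
      = ∑ x, ∑ y, D k G x * D k F y * wtk k ρ x y := by
    apply sum_congr rfl
    intro x _
    have e1 := sum_flip k (fun y => D k G x * (F y * sg (y k)) * wtk k ρ x y)
    have : ∑ y, D k G x * D k F y * wtk k ρ x y
        = (∑ y, D k G x * (F y * sg (y k)) * wtk k ρ x y
          + ∑ y, D k G x * (F (flip k y) * sg (flip k y k)) * wtk k ρ x (flip k y)) / 2 := by
      rw [← sum_add_distrib, sum_div]
      apply sum_congr rfl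
      intro y _
      rw [wtk_flip_right, flip_same, sg_not]
      unfold D
      ring
    rw [this, e1]
    ring
  have h3 : ∑ x, ∑ y, D k G x * D k F y * wtk k ρ x y = ∑ x, ∑ y, D k G x * D k F y * wt ρ x y := by
    have h4 : ∑ x, ∑ y, D k G x * D k F y * (ρ * (sg (x k) * sg (y k))) * wtk k ρ x y = 0 := by
      have e1 := sum_flip k (fun x => ∑ y, D k G x * D k F y * (ρ * (sg (x k) * sg (y k))) * wtk k ρ x y)
      have e2 : ∑ x, ∑ y, D k G (flip k x) * D k F y * (ρ * (sg (flip k x k) * sg (y k))) * wtk k ρ (flip k x) y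
          = - ∑ x, ∑ y, D k G x * D k F y * (ρ * (sg (x k) * sg (y k))) * wtk k ρ x y := by
        rw [← sum_neg_distrib]
        apply sum_congr rfl
        intro x _
        rw [← sum_neg_distrib]
        apply sum_congr rfl
        intro y _
        rw [D_flip, wtk_flip_left, flip_same, sg_not]
        ring
      rw [e2] at e1
      linarith
    have : ∑ x, ∑ y, D k G x * D k F y * wt ρ x y
        = ∑ x, ∑ y, D k G x * D k F y * wtk k ρ x y
          + ∑ x, ∑ y, D k G x * D k F y * (ρ * (sg (x k) * sg (y k))) * wtk k ρ x y := by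
      rw [← sum_add_distrib]
      apply sum_congr rfl
      intro x _
      rw [← sum_add_distrib]
      apply sum_congr rfl
      intro y _
      rw [wt_eq k]
      ring
    rw [this, h4, add_zero]
  rw [h1, h2, h3]

lemma hasDerivAt_Phi (G F : (I → Bool) → ℝ) (ρ : ℝ) :
    HasDerivAt (Phi G F) (∑ k, ∑ x, ∑ y, D k G x * D k F y * wt ρ x y) ρ := by
  have h : HasDerivAt (Phi G F)
      (∑ x, ∑ y, G x * F y * (∑ k, sg (x k) * sg (y k) * wtk k ρ x y)) ρ := by
    unfold Phi
    apply HasDerivAt.fun_sum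
    intro x _
    apply HasDerivAt.fun_sum
    intro y _
    exact (hasDerivAt_wt ρ x y).const_mul _
  refine h.congr_deriv ?_
  simp_rw [← sum_key, mul_sum]
  rw [sum_comm (s := (univ : Finset I))]
  apply sum_congr rfl
  intro x _
  rw [sum_comm (s := (univ : Finset I))]

/-- the covariance is bounded by the maximum of the derivative -/
lemma exists_rho (G F : (I → Bool) → ℝ) : ∃ ρ : ℝ, 0 ≤ ρ ∧ ρ ≤ 1 ∧
    2 ^ Fintype.card I * ∑ x, G x * F x - (∑ x, G x) * ∑ y, F y
      = ∑ k, ∑ x, ∑ y, D k G x * D k F y * wt ρ x y := by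
  obtain ⟨c, hc, h⟩ := exists_hasDerivAt_eq_slope (Phi G F)
    (fun ρ => ∑ k, ∑ x, ∑ y, D k G x * D k F y * wt ρ x y) (zero_lt_one' ℝ)
    (fun x _ => (hasDerivAt_Phi G F x).continuousAt.continuousWithinAt)
    (fun x _ => hasDerivAt_Phi G F x)
  refine ⟨c, hc.1.le, hc.2.le, ?_⟩
  rw [← Phi_zero, ← Phi_one, h]
  ring

/-- `|a^m - b^m| ≤ m |a - b| (a^(m-1) + b^(m-1))/2` for odd `m = 2 n + 1` -/
lemma abs_pow_sub_pow (a b : ℝ) (n : ℕ) :
    |a ^ (2 * n + 1) - b ^ (2 * n + 1)| ≤ (2 * n + 1) * |a - b| * ((a ^ (2 * n) + b ^ (2 * n)) / 2) := by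
  have h1 : a ^ (2 * n + 1) - b ^ (2 * n + 1)
      = (∑ i ∈ range (2 * n + 1), a ^ i * b ^ (2 * n - i)) * (a - b) := by
    have := Commute.geom_sum₂_mul (Commute.all a b) (2 * n + 1)
    rw [← this]
    congr 1
  rw [h1, abs_mul]
  have h2 : |∑ i ∈ range (2 * n + 1), a ^ i * b ^ (2 * n - i)|
      ≤ (2 * n + 1) * ((a ^ (2 * n) + b ^ (2 * n)) / 2) := by
    have h3 : |∑ i ∈ range (2 * n + 1), a ^ i * b ^ (2 * n - i)|
        ≤ ∑ i ∈ range (2 * n + 1), |a| ^ i * |b| ^ (2 * n - i) := by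
      refine (abs_sum_le_sum_abs _ _).trans (le_of_eq ?_)
      apply sum_congr rfl
      intro i _
      rw [abs_mul, abs_pow, abs_pow]
    refine h3.trans ?_
    have h4 : ∑ i ∈ range (2 * n + 1), |a| ^ i * |b| ^ (2 * n - i)
        = ∑ i ∈ range (2 * n + 1), |a| ^ (2 * n - i) * |b| ^ i := by
      rw [← Finset.sum_range_reflect]
      apply sum_congr rfl
      intro i hi
      have := mem_range.1 hi
      congr 2 <;> omega
    have h5 : ∀ i ∈ range (2 * n + 1), |a| ^ i * |b| ^ (2 * n - i) + |a| ^ (2 * n - i) * |b| ^ i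
        ≤ |a| ^ (2 * n) + |b| ^ (2 * n) := by
      intro i hi
      have hi' := mem_range.1 hi
      have e : 2 * n = i + (2 * n - i) := by omega
      have ea : |a| ^ (2 * n) = |a| ^ i * |a| ^ (2 * n - i) := by rw [← pow_add]; congr 1
      have eb : |b| ^ (2 * n) = |b| ^ i * |b| ^ (2 * n - i) := by rw [← pow_add]; congr 1
      rw [ea, eb]
      have : 0 ≤ (|a| ^ i - |b| ^ i) * (|a| ^ (2 * n - i) - |b| ^ (2 * n - i)) := by
        rcases le_total |a| |b| with h | h
        · apply mul_nonneg_of_nonpos_of_nonpos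
          · have := pow_le_pow_left₀ (abs_nonneg a) h i; linarith
          · have := pow_le_pow_left₀ (abs_nonneg a) h (2 * n - i); linarith
        · apply mul_nonneg
          · have := pow_le_pow_left₀ (abs_nonneg b) h i; linarith
          · have := pow_le_pow_left₀ (abs_nonneg b) h (2 * n - i); linarith
      nlinarith
    have h6 := sum_le_sum h5
    rw [sum_add_distrib, ← h4] at h6
    simp only [sum_const, card_range, nsmul_eq_mul] at h6
    have e1 : |a| ^ (2 * n) = a ^ (2 * n) := (even_two_mul n).pow_abs a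
    have e2 : |b| ^ (2 * n) = b ^ (2 * n) := (even_two_mul n).pow_abs b
    rw [e1, e2] at h6
    push_cast at h6
    linarith
  calc _ ≤ ((2 * n + 1) * ((a ^ (2 * n) + b ^ (2 * n)) / 2)) * |a - b| :=
        mul_le_mul_of_nonneg_right h2 (abs_nonneg _)
    _ = _ := by ring

lemma abs_D_pow (k : I) (F : (I → Bool) → ℝ) (n : ℕ) (x : I → Bool) :
    |D k (fun y => F y ^ (2 * n + 1)) x|
      ≤ (2 * n + 1) * |D k F x| * ((F x ^ (2 * n) + F (flip k x) ^ (2 * n)) / 2) := by
  unfold D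
  simp only [abs_div, abs_mul, abs_sg, one_mul, abs_two]
  have := abs_pow_sub_pow (F x) (F (flip k x)) n
  linarith

lemma young (a b l : ℝ) (ha : 0 ≤ a) (hb : 0 ≤ b) (hl : 0 < l) (r : ℕ) :
    (r + 1) * (a * b ^ r) ≤ l ^ r * a ^ (r + 1) + r * (b ^ (r + 1) / l) := by
  -- Bernoulli: `a^(r+1) ≥ c^(r+1) + (r+1)(a-c) c^r`
  have bern : ∀ a c : ℝ, 0 ≤ a → 0 ≤ c → (r + 1) * (a * c ^ r) ≤ a ^ (r + 1) + r * c ^ (r + 1) := by
    intro a c ha hc
    rcases hc.eq_or_lt with rfl | hc
    · rcases Nat.eq_zero_or_pos r with rfl | hr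
      · simp
      · simp [hr.ne']; positivity
    have h := one_add_mul_le_pow (a := a / c - 1) (by
      have : 0 ≤ a / c := by positivity
      linarith) (r + 1)
    have h2 : (1 + (a / c - 1)) ^ (r + 1) * c ^ (r + 1) = a ^ (r + 1) := by
      rw [← mul_pow]; congr 1; field_simp; ring
    have h3 := mul_le_mul_of_nonneg_right h (pow_pos hc (r + 1)).le
    rw [h2] at h3
    have h4 : (1 + ((r + 1 : ℕ) : ℝ) * (a / c - 1)) * c ^ (r + 1)
        = (r + 1) * (a * c ^ r) - r * c ^ (r + 1) := by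
      push_cast
      rw [pow_succ]
      field_simp
      ring
    rw [h4] at h3
    linarith
  rcases Nat.eq_zero_or_pos r with rfl | hr
  · simp
  -- apply with `a' = l a`, `c = b`
  have h := bern (l * a) b (by positivity) hb
  rw [mul_pow] at h
  have e : (r + 1) * (l * a * b ^ r) = l * ((r + 1) * (a * b ^ r)) := by ring
  rw [e] at h
  have h2 : l ^ (r + 1) * a ^ (r + 1) + r * b ^ (r + 1)
      = l * (l ^ r * a ^ (r + 1) + r * (b ^ (r + 1) / l)) := by
    field_simp
    ring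
  rw [h2] at h
  exact le_of_mul_le_mul_left h hl

/-- the main bound with sums, for centred `F` -/
lemma sum_pow_le (F : (I → Bool) → ℝ) (hF : ∑ x, F x = 0) (n : ℕ) :
    ∑ x, F x ^ (2 * (n + 1)) ≤ (2 * n + 1) ^ (n + 1) * ∑ x, V F x ^ (n + 1) := by
  obtain ⟨ρ, h0, h1, h⟩ := exists_rho (fun x => F x ^ (2 * n + 1)) F
  rw [hF, mul_zero, sub_zero] at h
  set N : ℝ := 2 ^ Fintype.card I with hN
  have hNpos : 0 < N := by positivity
  have hS : ∑ x, F x ^ (2 * n + 1) * F x = ∑ x, F x ^ (2 * (n + 1)) := by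
    apply sum_congr rfl
    intro x _
    rw [← pow_succ]
    congr 1
  rw [hS] at h
  -- bound of each `k`-term
  have hk : ∀ k, ∑ x, ∑ y, D k (fun y => F y ^ (2 * n + 1)) x * D k F y * wt ρ x y
      ≤ ∑ x, ∑ y, (2 * n + 1) * (|D k F x| * |D k F y| * F x ^ (2 * n)) * wt ρ x y := by
    intro k
    have e1 : ∑ x, ∑ y, |D k F x| * |D k F y| * F (flip k x) ^ (2 * n) * wt ρ x y
        = ∑ x, ∑ y, |D k F x| * |D k F y| * F x ^ (2 * n) * wt ρ x y := by
      rw [← sum_flip k (fun x => ∑ y, |D k F x| * |D k F y| * F x ^ (2 * n) * wt ρ x y)]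
      apply sum_congr rfl
      intro x _
      rw [← sum_flip k (fun y => |D k F (flip k x)| * |D k F y| * F (flip k x) ^ (2 * n)
        * wt ρ (flip k x) y)]
      apply sum_congr rfl
      intro y _
      rw [D_flip, D_flip, wt_flip_flip]
    have e2 : ∑ x, ∑ y, D k (fun y => F y ^ (2 * n + 1)) x * D k F y * wt ρ x y
        ≤ ∑ x, ∑ y, (2 * n + 1) * ((|D k F x| * |D k F y| * F x ^ (2 * n) * wt ρ x y
          + |D k F x| * |D k F y| * F (flip k x) ^ (2 * n) * wt ρ x y) / 2) := by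
      apply sum_le_sum
      intro x _
      apply sum_le_sum
      intro y _
      have hw := wt_nonneg h0 h1 x y
      have hD := abs_D_pow k F n x
      calc _ ≤ |D k (fun y => F y ^ (2 * n + 1)) x| * |D k F y| * wt ρ x y := by
            rw [← abs_mul]
            exact mul_le_mul_of_nonneg_right (le_abs_self _) hw
        _ ≤ ((2 * n + 1) * |D k F x| * ((F x ^ (2 * n) + F (flip k x) ^ (2 * n)) / 2))
            * |D k F y| * wt ρ x y := by gcongr
        _ = _ := by ring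
    refine e2.trans (le_of_eq ?_)
    have e3 : ∑ x, ∑ y, (2 * (n : ℝ) + 1) * ((|D k F x| * |D k F y| * F x ^ (2 * n) * wt ρ x y
          + |D k F x| * |D k F y| * F (flip k x) ^ (2 * n) * wt ρ x y) / 2)
        = (2 * n + 1) * ((∑ x, ∑ y, |D k F x| * |D k F y| * F x ^ (2 * n) * wt ρ x y
          + ∑ x, ∑ y, |D k F x| * |D k F y| * F (flip k x) ^ (2 * n) * wt ρ x y) / 2) := by
      rw [← sum_add_distrib, sum_div, mul_sum]
      apply sum_congr rfl
      intro x _
      rw [← sum_add_distrib, sum_div, mul_sum]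
    rw [e3, e1]
    have e4 : ∑ x, ∑ y, (2 * (n : ℝ) + 1) * (|D k F x| * |D k F y| * F x ^ (2 * n)) * wt ρ x y
        = (2 * n + 1) * ∑ x, ∑ y, |D k F x| * |D k F y| * F x ^ (2 * n) * wt ρ x y := by
      rw [mul_sum]
      apply sum_congr rfl
      intro x _
      rw [mul_sum]
      apply sum_congr rfl
      intro y _
      ring
    rw [e4]
    ring
  have h2 : N * ∑ x, F x ^ (2 * (n + 1))
      ≤ ∑ k, ∑ x, ∑ y, (2 * n + 1) * (|D k F x| * |D k F y| * F x ^ (2 * n)) * wt ρ x y := by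
    rw [h]
    exact sum_le_sum fun k _ => hk k
  -- Cauchy-Schwarz in `k`
  have h3 : ∑ k, ∑ x, ∑ y, (2 * n + 1) * (|D k F x| * |D k F y| * F x ^ (2 * n)) * wt ρ x y
      ≤ ∑ x, ∑ y, (2 * n + 1) * ((V F x + V F y) / 2 * F x ^ (2 * n)) * wt ρ x y := by
    rw [sum_comm]
    apply sum_le_sum
    intro x _
    rw [sum_comm]
    apply sum_le_sum
    intro y _
    have hw := wt_nonneg h0 h1 x y
    have hp : 0 ≤ F x ^ (2 * n) := (even_two_mul n).pow_nonneg _
    have e : ∑ k, (2 * (n : ℝ) + 1) * (|D k F x| * |D k F y| * F x ^ (2 * n)) * wt ρ x y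
        = (2 * n + 1) * ((∑ k, |D k F x| * |D k F y|) * F x ^ (2 * n)) * wt ρ x y := by
      rw [sum_mul, mul_sum, sum_mul]
    rw [e]
    have hcs : ∑ k, |D k F x| * |D k F y| ≤ (V F x + V F y) / 2 := by
      unfold V
      rw [← sum_add_distrib, sum_div]
      apply sum_le_sum
      intro k _
      have := sq_nonneg (|D k F x| - |D k F y|)
      have e1 := sq_abs (D k F x)
      have e2 := sq_abs (D k F y)
      nlinarith
    gcongr
  -- Young
  have h4 : ∑ x, ∑ y, (2 * n + 1) * ((V F x + V F y) / 2 * F x ^ (2 * n)) * wt ρ x y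
      ≤ ∑ x, ∑ y, (2 * n + 1) / (n + 1) * ((((2 * n + 1) ^ n * V F x ^ (n + 1)
          + n * (F x ^ (2 * (n + 1)) / (2 * n + 1))) + ((2 * n + 1) ^ n * V F y ^ (n + 1)
          + n * (F x ^ (2 * (n + 1)) / (2 * n + 1)))) / 2) * wt ρ x y := by
    apply sum_le_sum
    intro x _
    apply sum_le_sum
    intro y _
    have hw := wt_nonneg h0 h1 x y
    apply mul_le_mul_of_nonneg_right _ hw
    have e : (F x ^ 2) ^ n = F x ^ (2 * n) := by rw [← pow_mul]
    have e' : (F x ^ 2) ^ (n + 1) = F x ^ (2 * (n + 1)) := by rw [← pow_mul]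
    have y1 := young (V F x) (F x ^ 2) (2 * n + 1) (V_nonneg F x) (sq_nonneg _) (by positivity) n
    have y2 := young (V F y) (F x ^ 2) (2 * n + 1) (V_nonneg F y) (sq_nonneg _) (by positivity) n
    rw [e, e'] at y1 y2
    have hn : (0 : ℝ) < n + 1 := by positivity
    have h5 : (V F x + V F y) / 2 * F x ^ (2 * n) ≤ 1 / (n + 1) *
        ((((2 * n + 1) ^ n * V F x ^ (n + 1)
          + n * (F x ^ (2 * (n + 1)) / (2 * n + 1))) + ((2 * n + 1) ^ n * V F y ^ (n + 1)
          + n * (F x ^ (2 * (n + 1)) / (2 * n + 1)))) / 2) := by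
      rw [one_div, inv_mul_eq_div, le_div_iff₀ hn]
      linarith
    have h6 := mul_le_mul_of_nonneg_left h5 (show (0 : ℝ) ≤ 2 * n + 1 by positivity)
    refine h6.trans (le_of_eq ?_)
    ring
  -- sum out the weights
  have h7 : ∀ g : (I → Bool) → ℝ, ∑ x, ∑ y, g x * wt ρ x y = N * ∑ x, g x := by
    intro g
    rw [mul_sum]
    apply sum_congr rfl
    intro x _
    rw [← mul_sum, sum_wt]
    ring
  have h8 : ∀ g : (I → Bool) → ℝ, ∑ x, ∑ y, g y * wt ρ x y = N * ∑ x, g x := by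
    intro g
    rw [sum_comm, mul_sum]
    apply sum_congr rfl
    intro y _
    rw [← mul_sum, sum_wt']
    ring
  have h9 : ∑ x, ∑ y, (2 * (n : ℝ) + 1) / (n + 1) * ((((2 * n + 1) ^ n * V F x ^ (n + 1)
          + n * (F x ^ (2 * (n + 1)) / (2 * n + 1))) + ((2 * n + 1) ^ n * V F y ^ (n + 1)
          + n * (F x ^ (2 * (n + 1)) / (2 * n + 1)))) / 2) * wt ρ x y
      = N * ((2 * n + 1) ^ (n + 1) / (n + 1) * ∑ x, V F x ^ (n + 1)
        + n / (n + 1) * ∑ x, F x ^ (2 * (n + 1))) := by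
    have a1 := h7 (fun x => (2 * (n : ℝ) + 1) / (n + 1) * (((2 * n + 1) ^ n * V F x ^ (n + 1)
          + n * (F x ^ (2 * (n + 1)) / (2 * n + 1))) + n * (F x ^ (2 * (n + 1)) / (2 * n + 1))) / 2)
    have a2 := h8 (fun x => (2 * (n : ℝ) + 1) / (n + 1) * ((2 * n + 1) ^ n * V F x ^ (n + 1)) / 2)
    have a3 : ∑ x, ∑ y, (2 * (n : ℝ) + 1) / (n + 1) * ((((2 * n + 1) ^ n * V F x ^ (n + 1)
          + n * (F x ^ (2 * (n + 1)) / (2 * n + 1))) + ((2 * n + 1) ^ n * V F y ^ (n + 1)
          + n * (F x ^ (2 * (n + 1)) / (2 * n + 1)))) / 2) * wt ρ x y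
        = (∑ x, ∑ y, ((2 * (n : ℝ) + 1) / (n + 1) * (((2 * n + 1) ^ n * V F x ^ (n + 1)
          + n * (F x ^ (2 * (n + 1)) / (2 * n + 1))) + n * (F x ^ (2 * (n + 1)) / (2 * n + 1))) / 2)
            * wt ρ x y)
          + ∑ x, ∑ y, ((2 * (n : ℝ) + 1) / (n + 1) * ((2 * n + 1) ^ n * V F y ^ (n + 1)) / 2)
            * wt ρ x y := by
      rw [← sum_add_distrib]
      apply sum_congr rfl
      intro x _
      rw [← sum_add_distrib]
      apply sum_congr rfl
      intro y _
      ring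
    rw [a3, a1, a2, ← mul_add]
    congr 1
    rw [mul_sum, mul_sum, ← sum_add_distrib, ← sum_add_distrib]
    apply sum_congr rfl
    intro x _
    field_simp
    ring
  have h10 : N * ∑ x, F x ^ (2 * (n + 1)) ≤ N * ((2 * n + 1) ^ (n + 1) / (n + 1) * ∑ x, V F x ^ (n + 1)
        + n / (n + 1) * ∑ x, F x ^ (2 * (n + 1))) := by
    rw [← h9]
    exact h2.trans (h3.trans h4)
  have h11 := le_of_mul_le_mul_left h10 hNpos
  have hn : (0 : ℝ) < n + 1 := by positivity
  have h12 := mul_le_mul_of_nonneg_left h11 hn.le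
  have h13 : ((n : ℝ) + 1) * ((2 * n + 1) ^ (n + 1) / (n + 1) * ∑ x, V F x ^ (n + 1)
        + n / (n + 1) * ∑ x, F x ^ (2 * (n + 1)))
      = (2 * n + 1) ^ (n + 1) * ∑ x, V F x ^ (n + 1) + n * ∑ x, F x ^ (2 * (n + 1)) := by
    field_simp
  rw [h13] at h12
  linarith

/-- the moment inequality on the cube -/
theorem moment (F : (I → Bool) → ℝ) (r : ℕ) (hr : 1 ≤ r) :
    Ex (fun x => (F x - Ex F) ^ (2 * r)) ≤ (2 * r - 1) ^ r * Ex (fun x => V F x ^ r) := by
  obtain ⟨n, rfl⟩ := Nat.exists_eq_add_of_le hr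
  have hN : (0 : ℝ) < 2 ^ Fintype.card I := by positivity
  have hV : ∀ x, V (fun x => F x - Ex F) x = V F x := by
    intro x
    unfold V
    apply sum_congr rfl
    intro k _
    unfold D
    ring
  have hc : ∑ x, (F x - Ex F) = 0 := by
    rw [sum_sub_distrib]
    simp only [sum_const, nsmul_eq_mul]
    have : ((univ : Finset (I → Bool)).card : ℝ) = 2 ^ Fintype.card I := by
      rw [Finset.card_univ]; simp
    rw [this]
    unfold Ex
    field_simp
    ring
  have h := sum_pow_le (fun x => F x - Ex F) hc n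
  simp only [hV] at h
  unfold Ex at h ⊢
  rw [← mul_div_assoc]
  apply div_le_div_of_nonneg_right _ hN.le
  push_cast
  have e : (2 * (1 + (n : ℝ)) - 1) = 2 * n + 1 := by ring
  rw [e, Nat.add_comm 1 n]
  exact h

end

end Pool.Agent.Hhelper13.CubeMoment
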